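import Pool.Agent.Helper62.OG.Asm

/-!
# TL: the other sums over a window, without definitions of the project in the statement
-/

set_option autoImplicit false
open MeasureTheory Set Filter Topology
open Pool.Agent.Helper93.UG (zc sp)

namespace Pool.Agent.Helper57.TL
open Pool.Agent.Helper28.TL

theorem tol : ∀ g : ℝ → ℝ, BoundedVariationOn g (Icc (-1) 1) →
    (¬ ∃ c : ℝ, ∀ᵐ x ∂(volume.restrict (Icc (-1 : ℝ) 1)), g x = c) → ∀ d : ℝ, 0 < d → d ≤ 1 →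
    ∃ c C T₀ : ℝ, 0 < c ∧ 1 ≤ C ∧ ∀ T R L : ℝ, T₀ ≤ T → C ≤ L → Rng d T R L → ∀ (f : ℝ → ℝ) (a : ℝ),
      (∀ x ∈ Icc (-L) L, |f x| ≤ L ^ c) → eVariationOn f (Icc (-L) L) ≤ ENNReal.ofReal (L ^ c) →
      ENNReal.ofReal ((L / R) ^ (-d) * T) ≤ volume {t : ℝ | T ≤ t ∧ t ≤ 2 * T ∧ 1 / d <
        |(∑ᶠ ρ ∈ {ρ : ℂ | Pool.Agent.Helper57.PC.IsNontrivialZero ρ ∧ (ρ.im - t) / sp T ∈ Icc (-R) R},
            (Pool.Agent.Helper57.PC.mult ρ : ℝ) * g ((ρ.im - t) / sp T / R)) -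
          (a - ∑ᶠ ρ ∈ {ρ : ℂ | Pool.Agent.Helper57.PC.IsNontrivialZero ρ ∧ (ρ.im - t) / sp T ∈ Icc (-L) L \ Icc (-R) R},
            (Pool.Agent.Helper57.PC.mult ρ : ℝ) * f ((ρ.im - t) / sp T))|} :=
  Pool.Agent.Helper62.OG.tol

end Pool.Agent.Helper57.TL
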